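import Pool.Agent.Helper10.SP.GoalsC
import Pool.Agent.Helper55.SP.AFFT

/-!
# Packet SP-FIN1: finiteness
-/

open Complex Metric Set Filter Topology MeasureTheory
open scoped ContDiff ComplexConjugate ComplexOrder Manifold Matrix

namespace Pool.Agent.Helper8.SP

open Pool.Agent.Helper95.Lin Pool.Agent.Helper16.Abund Pool.Agent.Helper92.Orb
open Pool.Agent.Helper10.SP Pool.Agent.Helper55.SP

universe u v

theorem continuous_pt {b : ℕ} : Continuous (fun p : Cn b × ℂ => pt p.1 p.2) := by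
  have h1 : (fun p : Cn b × ℂ => pt p.1 p.2) = fun p : Cn b × ℂ => embL b p.1 + p.2 • ew b := by
    funext p
    rw [embL_apply]
    exact pt_eq_add p.1 p.2
  rw [h1]
  exact ((embL b).continuous.comp continuous_fst).add (continuous_snd.smul continuous_const)

theorem fin1 (hPARB : S_PARB.{u, v}) (hPAX : S_PAX.{u, v}) : S_FIN1.{u, v} := by
  intro b N G M _ _ _ _ _ _ h v hD c R E Φ hL z₀ r q ρ hρ hq s hs
  obtain ⟨-, -, hP3, -, -⟩ := hPARB hD
  obtain ⟨-, -, -, -, hinj⟩ := hPAX hD c R E Φ hL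
  choose hs1 hs2 hs3 using hs
  have hγ : ∀ k, ∃ γ, PMapG (Bd c R) (RelE (G := G) c R E) γ (ball z₀ ρ) (s k) := by
    intro k
    obtain ⟨h1, h2, h3, h4, h5, h6, γ, h7⟩ := hs1 k
    exact ⟨γ, h1, h2, ⟨h3, h4, h5⟩, h6, h7⟩
  choose γ hγ using hγ
  have hz₀ : z₀ ∈ ball z₀ ρ := mem_ball_self hρ
  set x₀ : Cn (b + 1) := pt z₀ 0 with hx₀
  set y : ℕ → Cn (b + 1) := fun k => pt ((s k).g z₀) ((s k).β z₀) with hy
  have hrel : ∀ k, RelE (G := G) c R E (γ k) x₀ (y k) := by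
    intro k
    obtain ⟨-, -, -, -, h5⟩ := hγ k
    have := h5 z₀ hz₀ 0
    simpa using this
  set K₀ : Set (Cn b × ℂ) := (⋃ i, closedBall (c i) q) ×ˢ closedBall (0 : ℂ) r with hK₀
  set C : Set (Cn (b + 1)) := (fun p : Cn b × ℂ => pt p.1 p.2) '' K₀ with hC
  have hCc : IsCompact C :=
    ((isCompact_iUnion fun i => isCompact_closedBall (c i) q).prod
      (isCompact_closedBall (0 : ℂ) r)).image continuous_pt
  have hyC : ∀ k, y k ∈ C := by
    intro k
    refine ⟨((s k).g z₀, (s k).β z₀), ⟨?_, ?_⟩, rfl⟩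
    · obtain ⟨i, hi⟩ := mem_iUnion.1 (hs2 k)
      exact mem_iUnion.2 ⟨i, ball_subset_closedBall hi⟩
    · simpa using hs3 k
  have hCT : C ⊆ tubeS (Bd c R) := by
    rintro x ⟨p, ⟨hp1, -⟩, rfl⟩
    obtain ⟨i, hi⟩ := mem_iUnion.1 hp1
    show base (pt p.1 p.2) ∈ Bd c R
    rw [base_pt]
    exact mem_iUnion.2 ⟨i, closedBall_subset_ball hq hi⟩
  have hEc : ContinuousOn E (tubeS (Bd c R)) := hL.par.1.2.continuousOn
  have hEC : ContinuousOn E C := hEc.mono hCT
  set K : Set M := E '' C ∪ {E x₀} with hK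
  have hKc : IsCompact K := (hCc.image_of_continuousOn hEC).union isCompact_singleton
  have hΓ := hD.proper K hKc
  have hγΓ : ∀ k, γ k ∈ {γ : G | ∃ y ∈ K, γ • y ∈ K} := by
    intro k
    refine ⟨E x₀, Or.inr rfl, Or.inl ⟨y k, hyC k, ?_⟩⟩
    exact (hrel k).2.2.symm
  -- the points over a given point
  have hfin : ∀ g : G, {w | w ∈ C ∧ g • E x₀ = E w}.Finite := by
    intro g
    set A : Set (Cn (b + 1)) := {w | w ∈ C ∧ g • E x₀ = E w} with hA
    have hAc : IsCompact A := by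
      have hcl : A = C ∩ E ⁻¹' {g • E x₀} := by
        ext w
        constructor
        · rintro ⟨h1, h2⟩
          exact ⟨h1, h2.symm⟩
        · rintro ⟨h1, h2⟩
          exact ⟨h1, (mem_singleton_iff.1 h2).symm⟩
      rw [hcl]
      have : IsClosed (C ∩ E ⁻¹' {g • E x₀}) :=
        hEC.preimage_isClosed_of_isClosed hCc.isClosed isClosed_singleton
      exact hCc.of_isClosed_subset this inter_subset_left
    have hiso : ∀ x ∈ A, ∃ W : Set (Cn (b + 1)), IsOpen W ∧ x ∈ W ∧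
        ∀ w ∈ W, E w = E x → w = x := by
      intro x hx
      obtain ⟨τ, U, W, hU, hW, hxU, hxW, -, -, -, -, -, hτ, -, hiff⟩ :=
        hP3 (tubeS (Bd c R)) (tubeS (Bd c R)) E E hL.par hL.par 1 x (hCT hx.1) x (hCT hx.1)
          (one_smul _ _)
      refine ⟨W, hW, hxW, fun w hw hE => ?_⟩
      have := (hiff x hxU w hw).1 (by rw [one_smul]; exact hE.symm)
      rw [this, hτ]
    choose! W hW1 hW2 hW3 using hiso
    obtain ⟨t, htA, ht⟩ := hAc.elim_nhds_subcover W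
      (fun x hx => (hW1 x hx).mem_nhds (hW2 x hx))
    refine t.finite_toSet.subset fun w hw => ?_
    obtain ⟨x, hxt, hwx⟩ := mem_iUnion₂.1 (ht hw)
    have hxA := htA x hxt
    have : w = x := hW3 x hxA w hwx (by rw [← hw.2, ← hxA.2])
    rw [this]
    exact hxt
  have hbig : (⋃ g ∈ {γ : G | ∃ y ∈ K, γ • y ∈ K},
      ({g} : Set G) ×ˢ {w | w ∈ C ∧ g • E x₀ = E w}).Finite :=
    hΓ.biUnion fun g _ => (finite_singleton g).prod (hfin g)
  obtain ⟨k, -, l, -, hkl, heq⟩ := Set.infinite_univ.exists_ne_map_eq_of_mapsTo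
    (f := fun k : ℕ => (γ k, y k)) (fun k _ => by
      refine mem_iUnion₂.2 ⟨γ k, hγΓ k, ?_⟩
      exact ⟨rfl, hyC k, (hrel k).2.2⟩) hbig
  refine ⟨k, l, hkl, ?_⟩
  have h1 : γ k = γ l := congrArg Prod.fst heq
  have h2 : y k = y l := congrArg Prod.snd heq
  have h3 : (s k).g z₀ = (s l).g z₀ := by
    have := congrArg base h2
    simpa only [hy, base_pt] using this
  have h4 : (s k).β z₀ = (s l).β z₀ := by
    have := congrArg lc h2
    simpa only [hy, lc_pt] using this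
  have hl := hγ l
  rw [← h1] at hl
  exact hinj (γ k) z₀ ρ (s k) (s l) (hγ k) hl z₀ hz₀ 0 h3 (by rw [h4]; ring)

end Pool.Agent.Helper8.SP
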