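import Pool.Agent.Helper10.SP.GoalsA

/-!
# Packet SP-AMAX: local form of the maximum principle
-/

open Complex Metric Set Filter Topology MeasureTheory
open scoped ContDiff ComplexConjugate ComplexOrder Manifold Matrix

namespace Pool.Agent.Helper8.SP

open Pool.Agent.Helper95.Lin Pool.Agent.Helper10.SP

/-- second derivative test, necessary condition, along a line -/
theorem lmax {E : Type*} [NormedAddCommGroup E] [NormedSpace ℝ E] {f : E → ℝ} {w : E} (e : E)
    (hf : ContDiffAt ℝ 2 f w) (hm : IsLocalMax f w) :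
    fderiv ℝ (fun z => fderiv ℝ f z e) w e ≤ 0 := by
  have h1 : fderiv ℝ f w = 0 := hm.fderiv_eq_zero
  by_contra hneg
  push Not at hneg
  have hev : ∀ᶠ z in 𝓝 w, ContDiffAt ℝ 2 f z := hf.eventually (by decide)
  have hline : Tendsto (fun t : ℝ => w + t • e) (𝓝 0) (𝓝 w) := by
    have : ContinuousAt (fun t : ℝ => w + t • e) 0 := by fun_prop
    simpa [ContinuousAt] using this
  have hlD : ∀ t : ℝ, HasDerivAt (fun t : ℝ => w + t • e) e t := by
    intro t
    simpa using ((hasDerivAt_id t).smul_const e).const_add w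
  have hg : ∀ᶠ t in 𝓝 (0 : ℝ), HasDerivAt (fun t : ℝ => f (w + t • e))
      (fderiv ℝ f (w + t • e) e) t := by
    filter_upwards [hline.eventually hev] with t ht
    exact (ht.differentiableAt (by norm_num)).hasFDerivAt.comp_hasDerivAt t (hlD t)
  have hdg : deriv (fun t : ℝ => f (w + t • e)) =ᶠ[𝓝 0]
      (fun t : ℝ => fderiv ℝ f (w + t • e) e) := by
    filter_upwards [hg] with t ht using ht.deriv
  have hw0 : w + (0 : ℝ) • e = w := by simp
  have hC1 : ContDiffAt ℝ 1 (fun z => fderiv ℝ f z e) w := by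
    have := hf.fderiv_right (m := 1) (by norm_num)
    exact this.clm_apply contDiffAt_const
  have hG : HasDerivAt (fun t : ℝ => fderiv ℝ f (w + t • e) e)
      (fderiv ℝ (fun z => fderiv ℝ f z e) w e) 0 := by
    have h2 : HasFDerivAt (fun z => fderiv ℝ f z e) (fderiv ℝ (fun z => fderiv ℝ f z e) w)
        (w + (0 : ℝ) • e) := by
      rw [hw0]
      exact (hC1.differentiableAt (by norm_num)).hasFDerivAt
    exact h2.comp_hasDerivAt (0 : ℝ) (hlD 0)
  have hdd : deriv (deriv (fun t : ℝ => f (w + t • e))) 0 =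
      fderiv ℝ (fun z => fderiv ℝ f z e) w e := by
    rw [hdg.deriv_eq, hG.deriv]
  have hd0 : deriv (fun t : ℝ => f (w + t • e)) 0 = 0 := by
    rw [hdg.self_of_nhds]
    show fderiv ℝ f (w + (0 : ℝ) • e) e = 0
    rw [hw0, h1]; rfl
  have hcont : ContinuousAt (fun t : ℝ => f (w + t • e)) 0 :=
    hg.self_of_nhds.continuousAt
  have hmin : IsLocalMin (fun t : ℝ => f (w + t • e)) 0 :=
    isLocalMin_of_deriv_deriv_pos (by rw [hdd]; exact hneg) hd0 hcont
  have hmax : ∀ᶠ t in 𝓝 (0 : ℝ), f (w + t • e) ≤ f w := hline.eventually hm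
  have hconst : (fun t : ℝ => f (w + t • e)) =ᶠ[𝓝 0] (fun _ => f w) := by
    filter_upwards [hmin, hmax] with t h3 h4
    simp only [hw0] at h3
    exact le_antisymm h4 h3
  have h5 : deriv (deriv (fun t : ℝ => f (w + t • e))) 0 = 0 := by
    rw [hconst.deriv.deriv_eq]
    simp
  rw [hdd] at h5
  linarith

section basics

variable {n : ℕ}

theorem lev_nonpos {f : Cn n → ℝ} {x : Cn n} (hf : ContDiffAt ℝ 2 f x) (hm : IsLocalMax f x)
    (e : Cn n) : lev f x e ≤ 0 := by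
  unfold lev hess
  have h1 := lmax e hf hm
  have h2 := lmax (I • e) hf hm
  linarith

theorem cd_congr {W : Set (Cn n)} (hW : IsOpen W) {f g : Cn n → ℂ} (h : EqOn f g W)
    (l : Fin n) : EqOn (cd l f) (cd l g) W := by
  intro y hy
  have : f =ᶠ[𝓝 y] g := by
    filter_upwards [hW.mem_nhds hy] with z hz using h hz
  unfold cd
  rw [this.fderiv_eq]

theorem cdb_congr {W : Set (Cn n)} (hW : IsOpen W) {f g : Cn n → ℂ} (h : EqOn f g W)
    (l : Fin n) : EqOn (cdb l f) (cdb l g) W := by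
  intro y hy
  have : f =ᶠ[𝓝 y] g := by
    filter_upwards [hW.mem_nhds hy] with z hz using h hz
  unfold cdb
  rw [this.fderiv_eq]

theorem Dv_congr {W : Set (Cn n)} (hW : IsOpen W) (v : Cn n → Cn n) {f g : Cn n → ℂ}
    (h : EqOn f g W) : EqOn (Dv v f) (Dv v g) W := by
  intro y hy
  unfold Dv
  exact Finset.sum_congr rfl fun l _ => by rw [cd_congr hW h l hy]

theorem Dvb_congr {W : Set (Cn n)} (hW : IsOpen W) (v : Cn n → Cn n) {f g : Cn n → ℂ}
    (h : EqOn f g W) : EqOn (Dvb v f) (Dvb v g) W := by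
  intro y hy
  unfold Dvb
  exact Finset.sum_congr rfl fun l _ => by rw [cdb_congr hW h l hy]

theorem cd_neg (l : Fin n) (f : Cn n → ℂ) (x : Cn n) :
    cd l (fun y => - f y) x = - cd l f x := by
  unfold cd
  rw [fderiv_fun_neg]
  simp only [neg_apply]
  ring

theorem cdb_neg (l : Fin n) (f : Cn n → ℂ) (x : Cn n) :
    cdb l (fun y => - f y) x = - cdb l f x := by
  unfold cdb
  rw [fderiv_fun_neg]
  simp only [neg_apply]
  ring

theorem Dv_neg (v : Cn n → Cn n) (f : Cn n → ℂ) (x : Cn n) :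
    Dv v (fun y => - f y) x = - Dv v f x := by
  unfold Dv
  rw [← Finset.sum_neg_distrib]
  exact Finset.sum_congr rfl fun l _ => by rw [cd_neg]; ring

theorem Dvb_neg (v : Cn n → Cn n) (f : Cn n → ℂ) (x : Cn n) :
    Dvb v (fun y => - f y) x = - Dvb v f x := by
  unfold Dvb
  rw [← Finset.sum_neg_distrib]
  exact Finset.sum_congr rfl fun l _ => by rw [cdb_neg]; ring

theorem conj_smooth {W : Set (Cn n)} {f : Cn n → ℂ} (hf : ContDiffOn ℝ ∞ f W) :
    ContDiffOn ℝ ∞ (fun y => conj (f y)) W :=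
  (Complex.conjCLE.contDiff).comp_contDiffOn hf

variable (hWIRT : S_WIRT) {W : Set (Cn n)} (hW : IsOpen W) {v : Cn n → Cn n}
  (hv : ContDiffOn ℝ ∞ v W)

include hWIRT hW

theorem Dv_mul {f g : Cn n → ℂ} (hf : ContDiffOn ℝ ∞ f W)
    (hg : ContDiffOn ℝ ∞ g W) {x : Cn n} (hx : x ∈ W) :
    Dv v (fun y => f y * g y) x = f x * Dv v g x + g x * Dv v f x := by
  obtain ⟨-, -, h3, -, -, -⟩ := hWIRT W hW f g hf hg
  unfold Dv
  rw [Finset.mul_sum, Finset.mul_sum, ← Finset.sum_add_distrib]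
  exact Finset.sum_congr rfl fun l _ => by rw [(h3 l x hx).1]; ring

theorem Dvb_mul {f g : Cn n → ℂ} (hf : ContDiffOn ℝ ∞ f W)
    (hg : ContDiffOn ℝ ∞ g W) {x : Cn n} (hx : x ∈ W) :
    Dvb v (fun y => f y * g y) x = f x * Dvb v g x + g x * Dvb v f x := by
  obtain ⟨-, -, h3, -, -, -⟩ := hWIRT W hW f g hf hg
  unfold Dvb
  rw [Finset.mul_sum, Finset.mul_sum, ← Finset.sum_add_distrib]
  exact Finset.sum_congr rfl fun l _ => by rw [(h3 l x hx).2]; ring

theorem Dv_add {f g : Cn n → ℂ} (hf : ContDiffOn ℝ ∞ f W)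
    (hg : ContDiffOn ℝ ∞ g W) {x : Cn n} (hx : x ∈ W) :
    Dv v (fun y => f y + g y) x = Dv v f x + Dv v g x := by
  obtain ⟨-, h3, -, -, -, -⟩ := hWIRT W hW f g hf hg
  unfold Dv
  rw [← Finset.sum_add_distrib]
  exact Finset.sum_congr rfl fun l _ => by rw [(h3 l x hx).1]; ring

include hv

theorem Dvb_smooth {f : Cn n → ℂ} (hf : ContDiffOn ℝ ∞ f W) :
    ContDiffOn ℝ ∞ (Dvb v f) W := by
  obtain ⟨h1, -, -, -, -, -⟩ := hWIRT W hW f f hf hf
  unfold Dvb
  refine ContDiffOn.sum fun l _ => ContDiffOn.mul ?_ (h1 l).2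
  exact conj_smooth (contDiffOn_pi.mp hv l)

theorem qf_smooth : ContDiffOn ℝ ∞ (qf v) W := by
  have hT : ∀ j l, ContDiffOn ℝ ∞ (fun y => Tm v y j l) W := by
    intro j l
    have hvj := contDiffOn_pi.mp hv j
    obtain ⟨h1, -, -, -, -, -⟩ := hWIRT W hW (fun y => v y j) (fun y => v y j) hvj hvj
    exact (h1 l).2
  have : qf v = fun y => ∑ j, ∑ m, Tm v y j m * conj (Tm v y m j) := by
    funext y
    unfold qf mc
    simp only [Matrix.trace, Matrix.diag_apply, Matrix.mul_apply, Matrix.map_apply]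
  rw [this]
  refine ContDiffOn.sum fun j _ => ContDiffOn.sum fun m _ => ?_
  exact (hT j m).mul (conj_smooth (hT m j))

end basics

section chain

variable {n : ℕ}

/-- chain rule for the exponential of a real function -/
theorem exp_cd {M : Cn n → ℝ} {x : Cn n} (hM : DifferentiableAt ℝ M x) (l : Fin n) :
    cd l (fun y => ((Real.exp (M y) : ℝ) : ℂ)) x =
      ((Real.exp (M x) : ℝ) : ℂ) * cd l (fun y => ((M y : ℝ) : ℂ)) x ∧
    cdb l (fun y => ((Real.exp (M y) : ℝ) : ℂ)) x =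
      ((Real.exp (M x) : ℝ) : ℂ) * cdb l (fun y => ((M y : ℝ) : ℂ)) x := by
  have h1 : ∀ {φ : Cn n → ℝ}, DifferentiableAt ℝ φ x → ∀ e,
      fderiv ℝ (fun y => ((φ y : ℝ) : ℂ)) x e = ((fderiv ℝ φ x e : ℝ) : ℂ) := by
    intro φ hφ e
    have := (Complex.ofRealCLM.hasFDerivAt.comp x hφ.hasFDerivAt).fderiv
    have h2 : (fun y => ((φ y : ℝ) : ℂ)) = Complex.ofRealCLM ∘ φ := rfl
    rw [h2, this]
    rfl
  have h2 : DifferentiableAt ℝ (fun y => Real.exp (M y)) x := hM.exp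
  have h3 : ∀ e, fderiv ℝ (fun y => Real.exp (M y)) x e = Real.exp (M x) * fderiv ℝ M x e := by
    intro e
    rw [fderiv_exp hM]
    simp
  unfold cd cdb
  rw [h1 h2, h1 h2, h1 hM, h1 hM, h3, h3]
  push_cast
  constructor <;> ring

theorem cd_sum {ι : Type*} [Fintype ι] (l : Fin n) {A : ι → Cn n → ℂ} {x : Cn n}
    (hA : ∀ k, DifferentiableAt ℝ (A k) x) :
    cd l (fun y => ∑ k, A k y) x = ∑ k, cd l (A k) x := by
  unfold cd
  rw [fderiv_fun_sum fun k _ => hA k]
  simp only [sum_apply]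
  rw [Finset.mul_sum, Finset.sum_sub_distrib]

theorem cd_zero_of {φ : Cn n → ℝ} {x : Cn n} (hφ : DifferentiableAt ℝ φ x)
    (h0 : fderiv ℝ φ x = 0) (l : Fin n) :
    cd l (fun y => ((φ y : ℝ) : ℂ)) x = 0 ∧ cdb l (fun y => ((φ y : ℝ) : ℂ)) x = 0 := by
  have h1 : ∀ e, fderiv ℝ (fun y => ((φ y : ℝ) : ℂ)) x e = 0 := by
    intro e
    have := (Complex.ofRealCLM.hasFDerivAt.comp x hφ.hasFDerivAt).fderiv
    have h2 : (fun y => ((φ y : ℝ) : ℂ)) = Complex.ofRealCLM ∘ φ := rfl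
    rw [h2, this, h0]
    simp
  unfold cd cdb
  rw [h1, h1]
  simp

end chain

section adj

variable {n : ℕ}

theorem det_smooth {W : Set (Cn n)} {m : ℕ} {A : Cn n → Matrix (Fin m) (Fin m) ℂ}
    (hA : ∀ j k, ContDiffOn ℝ ∞ (fun x => A x j k) W) :
    ContDiffOn ℝ ∞ (fun x => (A x).det) W := by
  simp only [Matrix.det_apply]
  refine ContDiffOn.sum fun σ _ => ?_
  refine ContDiffOn.const_smul (Equiv.Perm.sign σ) ?_
  exact contDiffOn_prod fun i _ => hA _ _

theorem adj_smooth {W : Set (Cn n)} {m : ℕ} {A : Cn n → Matrix (Fin m) (Fin m) ℂ}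
    (hA : ∀ j k, ContDiffOn ℝ ∞ (fun x => A x j k) W) (i j : Fin m) :
    ContDiffOn ℝ ∞ (fun x => (A x).adjugate i j) W := by
  simp only [Matrix.adjugate_apply]
  refine det_smooth fun a b => ?_
  simp only [Matrix.updateRow_apply]
  by_cases h : a = j
  · simp only [h, if_true]
    exact contDiffOn_const
  · simp only [h, if_false]
    exact hA a b

end adj

theorem amax (hWIRT : S_WIRT) (hLMF : S_LMF) (hKV : S_KV) (hDER : S_DER) (hLA : S_LA)
    (hDDQ : S_DDQ) (hDDA : S_DDA) : S_AMAX := by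
  intro n W hW Φ hΦ hC i x hx
  obtain ⟨-, hadj, hKV3, hKV4⟩ := hKV W hW Φ hΦ hC
  obtain ⟨hLs, hLh, hLl, hLc⟩ := hLMF W hW Φ hΦ
  set v := kv i Φ with hvdef
  set U := Wi i Φ W with hU
  have hUo : IsOpen U := (hKV3 i).1
  have hUW : U ⊆ W := fun y hy => hy.1
  have hvs : ContDiffOn ℝ ∞ v U := (hKV3 i).2
  have hpsd : ∀ y ∈ W, (LM Φ y).PosSemidef := by
    intro y hy
    refine Matrix.PosSemidef.of_dotProduct_mulVec_nonneg (hLh y hy) fun e => ?_
    have h1 := hLl y hy (fun j => conj (e j))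
    have h2 : star e ⬝ᵥ (LM Φ y).mulVec e = hermi (LM Φ y) (fun j => conj (e j))
        (fun j => conj (e j)) := by
      unfold hermi
      simp only [dotProduct, Matrix.mulVec, Finset.mul_sum, Pi.star_apply, Complex.conj_conj]
      refine Finset.sum_congr rfl fun a _ => Finset.sum_congr rfl fun b _ => ?_
      rw [← mul_assoc, Complex.star_def]
      ring
    rw [h2, ← h1]
    exact_mod_cast (hC y hy).1 _
  have hK : KerF i (LM Φ) U v :=
    { isOpen := hUo
      smH := fun j k => (hLs j k).mono hUW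
      herm := fun y hy => hpsd y (hUW hy)
      clos := fun y hy => hLc y (hUW hy)
      smv := hvs
      norm := fun y hy => (hKV4 i y hy).1
      ker := fun y hy => (hKV4 i y hy).2.1
      only := fun y hy => (hKV4 i y hy).2.2.1 }
  -- linear algebra at the points of `U`
  have hla : ∀ y ∈ U, ∀ X Y : Matrix (Fin n) (Fin n) ℂ, (∀ l, X i l = 0) → (∀ l, Y i l = 0) →
      ((LM Φ y)ᵀ * X).IsSymm → ((LM Φ y)ᵀ * Y).IsSymm →
      (Matrix.trace (X * mc X)).im = 0 ∧ 0 ≤ (Matrix.trace (X * mc X)).re ∧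
      (Matrix.trace (X * mc X) = 0 → X = 0) ∧
      ‖Matrix.trace (X * mc Y)‖ ^ 2 ≤
        (Matrix.trace (X * mc X)).re * (Matrix.trace (Y * mc Y)).re ∧
      (Matrix.trace (X * mc X * (X * mc X))).im = 0 ∧
      (Matrix.trace (X * mc X)).re ^ 2 ≤ n * (Matrix.trace (X * mc X * (X * mc X))).re :=
    fun y hy => hLA i (LM Φ y) (v y) (hK.herm y hy) (hK.norm y hy) (hK.ker y hy) (hK.only y hy)
  have hder := hDER i (LM Φ) U v hK
  have hT0 : ∀ y ∈ U, ∀ l, Tm v y i l = 0 := fun y hy l => ((hder y hy).2.2.2.2.2.2 l).1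
  have hqr : ∀ y ∈ U, (qf v y).im = 0 ∧ 0 ≤ (qf v y).re := by
    intro y hy
    have h := hla y hy (Tm v y) (Tm v y) (hT0 y hy) (hT0 y hy) (hder y hy).1 (hder y hy).1
    exact ⟨h.1, h.2.1⟩
  have hfnn : 0 ≤ ff i Φ x := mul_nonneg (hqr x hx).2 (Real.exp_pos _).le
  refine ⟨hfnn, fun hmax => ?_⟩
  by_contra hne
  have hq0 : 0 < (qf v x).re := by
    rcases (hqr x hx).2.lt_or_eq with h | h
    · exact h
    · exfalso
      apply hne
      unfold ff
      rw [← hvdef, ← h, zero_mul]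
  -- smoothness
  have hqs : ContDiffOn ℝ ∞ (qf v) U := qf_smooth hWIRT hUo hvs
  have hqrs : ContDiffOn ℝ ∞ (fun y => (qf v y).re) U :=
    Complex.reCLM.contDiff.comp_contDiffOn hqs
  have hdre : ∀ y ∈ U, ((LM Φ y).adjugate i i).re ≠ 0 := by
    intro y hy h
    exact hy.2 (Complex.ext h (hadj y (hUW hy) i).1)
  have hlas : ContDiffOn ℝ ∞ (laf i Φ) U := by
    unfold laf
    refine (hΦ.mono hUW).sub (ContDiffOn.log ?_ hdre)
    exact Complex.reCLM.contDiff.comp_contDiffOn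
      (adj_smooth (fun j k => (hLs j k).mono hUW) i i)
  set M : Cn n → ℝ := fun y => - laf i Φ y with hMdef
  have hMs : ContDiffOn ℝ ∞ M U := hlas.neg
  have hMcs : ContDiffOn ℝ ∞ (fun y => ((M y : ℝ) : ℂ)) U :=
    Complex.ofRealCLM.contDiff.comp_contDiffOn hMs
  have hEs : ContDiffOn ℝ ∞ (fun y => Real.exp (M y)) U := hMs.exp
  have hEcs : ContDiffOn ℝ ∞ (fun y => ((Real.exp (M y) : ℝ) : ℂ)) U :=
    Complex.ofRealCLM.contDiff.comp_contDiffOn hEs
  have hffs : ContDiffOn ℝ ∞ (ff i Φ) U := hqrs.mul hEs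
  have hffcs : ContDiffOn ℝ ∞ (fun y => ((ff i Φ y : ℝ) : ℂ)) U :=
    Complex.ofRealCLM.contDiff.comp_contDiffOn hffs
  set q : Cn n → ℂ := qf v with hqdef
  set E : Cn n → ℂ := fun y => ((Real.exp (M y) : ℝ) : ℂ) with hEdef
  set Mc : Cn n → ℂ := fun y => ((M y : ℝ) : ℂ) with hMcdef
  set F : Cn n → ℂ := fun y => ((ff i Φ y : ℝ) : ℂ) with hFdef
  have hFeq : EqOn F (fun y => q y * E y) U := by
    intro y hy
    have h1 : q y = (((q y).re : ℝ) : ℂ) := Complex.ext rfl (by simpa using (hqr y hy).1)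
    show ((ff i Φ y : ℝ) : ℂ) = q y * E y
    rw [h1]
    simp only [hEdef, hMdef, ff, ← hvdef, ← hqdef]
    push_cast
    rfl
  have hdiffM : ∀ y ∈ U, DifferentiableAt ℝ M y := fun y hy =>
    (hMs.differentiableOn (by norm_num)).differentiableAt (hUo.mem_nhds hy)
  have hDE : ∀ y ∈ U, Dv v E y = E y * Dv v Mc y := by
    intro y hy
    unfold Dv
    rw [Finset.mul_sum]
    refine Finset.sum_congr rfl fun l _ => ?_
    rw [(exp_cd (hdiffM y hy) l).1]
    simp only [hEdef, hMcdef]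
    ring
  have hDbE : ∀ y ∈ U, Dvb v E y = E y * Dvb v Mc y := by
    intro y hy
    unfold Dvb
    rw [Finset.mul_sum]
    refine Finset.sum_congr rfl fun l _ => ?_
    rw [(exp_cd (hdiffM y hy) l).2]
    simp only [hEdef, hMcdef]
    ring
  -- first derivative
  have hF1 : ∀ y ∈ U, Dvb v F y = q y * (E y * Dvb v Mc y) + E y * Dvb v q y := by
    intro y hy
    rw [Dvb_congr hUo v hFeq hy, Dvb_mul hWIRT hUo hqs hEcs hy, hDbE y hy]
  have hF1' : ∀ y ∈ U, Dv v F y = q y * (E y * Dv v Mc y) + E y * Dv v q y := by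
    intro y hy
    rw [Dv_congr hUo v hFeq hy, Dv_mul hWIRT hUo hqs hEcs hy, hDE y hy]
  have hbM : ContDiffOn ℝ ∞ (Dvb v Mc) U := Dvb_smooth hWIRT hUo hvs hMcs
  have hbq : ContDiffOn ℝ ∞ (Dvb v q) U := Dvb_smooth hWIRT hUo hvs hqs
  -- second derivative
  have hF2 : Dv v (Dvb v F) x =
      q x * (E x * Dv v (Dvb v Mc) x + Dvb v Mc x * (E x * Dv v Mc x)) +
      (E x * Dvb v Mc x) * Dv v q x +
      (E x * Dv v (Dvb v q) x + Dvb v q x * (E x * Dv v Mc x)) := by
    rw [Dv_congr hUo v (g := fun y => q y * (E y * Dvb v Mc y) + E y * Dvb v q y) hF1 hx,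
      Dv_add hWIRT hUo (hqs.mul (hEcs.mul hbM)) (hEcs.mul hbq) hx,
      Dv_mul hWIRT hUo hqs (hEcs.mul hbM) hx, Dv_mul hWIRT hUo hEcs hbM hx,
      Dv_mul hWIRT hUo hEcs hbq hx, hDE x hx]
  have hDDM : Dv v (Dvb v Mc) x = q x := by
    have h1 : Dvb v Mc = fun y => - Dvb v (fun y => ((laf i Φ y : ℝ) : ℂ)) y := by
      funext y
      rw [← Dvb_neg]
      congr 1
      funext z
      simp only [hMcdef, hMdef]
      push_cast
      rfl
    rw [h1, Dv_neg, hDDA i W hW Φ hΦ hC x hx, neg_neg]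
  -- at the maximum
  have hffx : ContDiffAt ℝ 2 (ff i Φ) x :=
    (hffs.contDiffAt (hUo.mem_nhds hx)).of_le 
    (WithTop.coe_le_coe.mpr le_top)
  have hfd : DifferentiableAt ℝ (ff i Φ) x := hffx.differentiableAt (by norm_num)
  have hz := cd_zero_of hfd hmax.fderiv_eq_zero
  have hz1 : Dv v F x = 0 := by
    unfold Dv
    exact Finset.sum_eq_zero fun l _ => by rw [(hz l).1, mul_zero]
  have hz2 : Dvb v F x = 0 := by
    unfold Dvb
    exact Finset.sum_eq_zero fun l _ => by rw [(hz l).2, mul_zero]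
  have hlev : Dv v (Dvb v F) x = ((lev (ff i Φ) x (v x) : ℝ) : ℂ) := by
    rw [(hLMF U hUo (ff i Φ) hffs).2.2.1 x hx (v x)]
    unfold hermi Dv
    refine Finset.sum_congr rfl fun j _ => ?_
    have h1 : cd j (Dvb v F) x = ∑ k, conj (v x k) * cd j (cdb k F) x := by
      obtain ⟨hFb, -, -, -, -, -⟩ := hWIRT U hUo F F hffcs hffcs
      have hvk : ∀ k, ContDiffOn ℝ ∞ (fun y => conj (v y k)) U := fun k =>
        conj_smooth (contDiffOn_pi.mp hvs k)
      show cd j (fun y => ∑ k, conj (v y k) * cdb k F y) x = _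
      rw [cd_sum j (fun k => (((hvk k).mul (hFb k).2).differentiableOn
        (by norm_num)).differentiableAt (hUo.mem_nhds hx))]
      refine Finset.sum_congr rfl fun k _ => ?_
      obtain ⟨-, -, h3, -, -, -⟩ := hWIRT U hUo _ _ (hvk k) (hFb k).2
      rw [(h3 j x hx).1, (hz k).2]
      ring
    rw [h1, Finset.mul_sum]
    refine Finset.sum_congr rfl fun k _ => ?_
    show v x j * (conj (v x k) * cd j (cdb k F) x) = cd j (cdb k F) x * v x j * conj (v x k)
    ring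
  have hle : lev (ff i Φ) x (v x) ≤ 0 := lev_nonpos hffx hmax _
  obtain ⟨P', hP1, hP2, hP3, hP4, hP5⟩ := hDDQ i (LM Φ) U v hK x hx
  have hLAx := hla x hx (Tm v x) P' (hT0 x hx) hP1 (hder x hx).1 hP2
  have hLAp := hla x hx P' P' hP1 hP1 hP2 hP2
  set T := Tm v x with hTdef
  have hqx : q x = Matrix.trace (T * mc T) := rfl
  -- real quantities
  set q0 : ℝ := (q x).re with hq0def
  have hq0c : q x = (q0 : ℂ) := Complex.ext rfl (by simpa using (hqr x hx).1)
  set s0 : ℝ := (Matrix.trace (T * mc T * (T * mc T))).re with hs0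
  have hs0c : Matrix.trace (T * mc T * (T * mc T)) = (s0 : ℂ) :=
    Complex.ext rfl (by simpa using hLAx.2.2.2.2.1)
  set p0 : ℝ := (Matrix.trace (P' * mc P')).re with hp0
  have hp0c : Matrix.trace (P' * mc P') = (p0 : ℂ) :=
    Complex.ext rfl (by simpa using hLAp.1)
  set τ : ℂ := Matrix.trace (T * mc P') with hτ
  have hτ2 : ‖τ‖ ^ 2 ≤ q0 * p0 := hLAx.2.2.2.1
  have hs0n : 0 ≤ s0 := by
    have h1 : q0 ^ 2 ≤ n * s0 := hLAx.2.2.2.2.2
    have h2 : (0 : ℝ) < n := by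
      have : 0 < n := i.pos
      exact_mod_cast this
    by_contra h
    push Not at h
    nlinarith [mul_neg_of_pos_of_neg h2 h, sq_nonneg q0]
  set E0 : ℝ := Real.exp (M x) with hE0
  have hE0c : E x = (E0 : ℂ) := rfl
  have hE0p : 0 < E0 := Real.exp_pos _
  rw [hF1' x hx] at hz1
  rw [hF1 x hx] at hz2
  have hEne : E x ≠ 0 := by
    rw [hE0c]
    exact_mod_cast hE0p.ne'
  have hd1 : Dv v q x = - (q x * Dv v Mc x) := by
    have : E x * (q x * Dv v Mc x + Dv v q x) = 0 := by linear_combination hz1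
    rcases mul_eq_zero.mp this with h | h
    · exact absurd h hEne
    · linear_combination h
  have hd2 : Dvb v q x = - (q x * Dvb v Mc x) := by
    have : E x * (q x * Dvb v Mc x + Dvb v q x) = 0 := by linear_combination hz2
    rcases mul_eq_zero.mp this with h | h
    · exact absurd h hEne
    · linear_combination h
  have hmain : q x * Dv v (Dvb v F) x =
      E x * (q x ^ 3 + q x * Dv v (Dvb v q) x - Dv v q x * Dvb v q x) := by
    rw [hF2, hDDM]
    rw [hd1, hd2]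
    ring
  have hττ : conj τ * τ = ((‖τ‖ ^ 2 : ℝ) : ℂ) := by
    rw [Complex.conj_mul']
    push_cast
    rfl
  rw [hlev, hP5, hP3, hP4, hs0c, hp0c, hττ, hq0c, hE0c] at hmain
  have hreal : q0 * lev (ff i Φ) x (v x) = E0 * (q0 ^ 3 + q0 * (2 * s0 + p0) - ‖τ‖ ^ 2) := by
    exact_mod_cast hmain
  have hpos : 0 < E0 * (q0 ^ 3 + q0 * (2 * s0 + p0) - ‖τ‖ ^ 2) := by
    apply mul_pos hE0p
    have h1 : 0 < q0 ^ 3 := pow_pos hq0 3
    have h2 : 0 ≤ q0 * s0 := mul_nonneg hq0.le hs0n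
    nlinarith
  have hneg : q0 * lev (ff i Φ) x (v x) ≤ 0 := mul_nonpos_of_nonneg_of_nonpos hq0.le hle
  linarith

end Pool.Agent.Helper8.SP
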