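import Pool.Agent.Helper10.SP.GoalsT
import Pool.Agent.Helper10.Lin.PhDiv
import Pool.Agent.Helper8.SP.AMAX

/-!
# Packet SP-DETI: the determinant of the metric and the inverse metric
-/

open Complex Metric Set Filter Topology MeasureTheory
open scoped ContDiff ComplexConjugate ComplexOrder Manifold

namespace Pool.Agent.Helper8.SP

open Pool.Agent.Helper95.Lin Pool.Agent.Helper16.Abund Pool.Agent.Helper92.Orb
open Pool.Agent.Helper10.SP

universe u v

/-- the matrix identity behind the naturality of the inverse metric -/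
theorem inv_nat {n : ℕ} {A A' J : Matrix (Fin n) (Fin n) ℂ}
    (hA : IsUnit A.det) (h : A = J.transpose * A' * J.map (starRingEnd ℂ)) :
    A'⁻¹ = J.map (starRingEnd ℂ) * A⁻¹ * J.transpose := by
  have h1 : J.transpose * (A' * J.map (starRingEnd ℂ) * A⁻¹) = 1 := by
    calc J.transpose * (A' * J.map (starRingEnd ℂ) * A⁻¹)
        = (J.transpose * A' * J.map (starRingEnd ℂ)) * A⁻¹ := by
          simp only [Matrix.mul_assoc]
      _ = A * A⁻¹ := by rw [← h]
      _ = 1 := Matrix.mul_nonsing_inv _ hA
  have h2 := mul_eq_one_comm.1 h1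
  apply Matrix.inv_eq_right_inv
  rw [← h2]
  simp only [Matrix.mul_assoc]

theorem deti (hWIRT : S_WIRT) : S_DETI.{u} := by
  intro n T G _ R H hK
  have hTo : IsOpen T := hK.et.isOpen
  have hdetpos : ∀ x ∈ T, 0 < (H x).det := fun x hx => (hK.posDef x hx).det_pos
  have him : ∀ x ∈ T, (H x).det.im = 0 := fun x hx => by
    have := (Complex.lt_def.1 (hdetpos x hx)).2
    simpa using this.symm
  have hre : ∀ x ∈ T, 0 < (H x).det.re := fun x hx => by
    have := (Complex.lt_def.1 (hdetpos x hx)).1
    simpa using this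
  have hdc : ∀ x ∈ T, (((H x).det.re : ℝ) : ℂ) = (H x).det := fun x hx =>
    Complex.ext (by simp) (by simp [him x hx])
  have hunit : ∀ x ∈ T, IsUnit (H x).det := fun x hx => (hdetpos x hx).ne'.isUnit
  have hdets : ContDiffOn ℝ ∞ (fun x => (H x).det) T := det_smooth hK.smooth
  have hadj : ∀ j k, ContDiffOn ℝ ∞ (fun x => (H x).adjugate j k) T :=
    adj_smooth hK.smooth
  have hinv : ∀ x ∈ T, ∀ j k, (H x)⁻¹ j k = ((H x).det)⁻¹ * (H x).adjugate j k := by
    intro x hx j k
    rw [Matrix.inv_def, Matrix.smul_apply, smul_eq_mul, Ring.inverse_eq_inv']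
  refine ⟨?_, ?_, ?_, ?_, ?_, ?_⟩
  · intro x hx
    exact ⟨him x hx, hre x hx, (hK.posDef x hx).inv, Matrix.mul_nonsing_inv _ (hunit x hx)⟩
  · exact Complex.reCLM.contDiff.comp_contDiffOn hdets
  · intro j k
    have h1 : ContDiffOn ℝ ∞ (fun x => ((H x).det)⁻¹ * (H x).adjugate j k) T :=
      (hdets.inv fun x hx => (hdetpos x hx).ne').mul (hadj j k)
    exact h1.congr fun x hx => hinv x hx j k
  · intro x hx j k l
    have hh : ∀ a b, EqOn (fun y => H y a b) (fun y => conj (H y b a)) T := fun a b y hy =>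
      ((hK.posDef y hy).isHermitian.apply a b).symm
    have hw := fun a b => (hWIRT T hTo (fun y => H y a b) (fun y => H y a b) (hK.smooth a b)
      (hK.smooth a b)).2.2.2.1
    rw [cdb_congr hTo (hh j k) l hx, cdb_congr hTo (hh j l) k hx, (hw k j l x hx).2,
      (hw l j k x hx).2, hK.closed x hx k j l]
  · intro U τ hA x hx
    have hxT : x ∈ T := by
      obtain ⟨-, -, γ, hγ⟩ := hA
      exact (hK.et.mem _ _ _ (hγ x hx)).1
    set L : Cn n →L[ℂ] Cn n := fderiv ℂ τ x with hL
    set J : Matrix (Fin n) (Fin n) ℂ := Matrix.of fun p j => L (Pi.single j 1) p with hJ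
    have hJdet : J.det = L.det := by
      have h1 : L.det = (LinearMap.toMatrix' (L : Cn n →ₗ[ℂ] Cn n)).det :=
        (LinearMap.det_toMatrix' _).symm
      rw [h1]
      congr 1
    have hmat : H x = J.transpose * H (τ x) * J.map (starRingEnd ℂ) := by
      ext j k
      have h1 := hK.inv U τ hA x hx (Pi.single j 1) (Pi.single k 1)
      have h2 : hermi (H x) (Pi.single j 1) (Pi.single k 1) = H x j k := by
        unfold hermi
        rw [Finset.sum_eq_single j, Finset.sum_eq_single k]
        · simp
        · intro b _ hb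
          simp [Pi.single_eq_of_ne hb]
        · simp
        · intro b _ hb
          simp [Pi.single_eq_of_ne hb]
        · simp
      rw [← h2, ← h1]
      unfold hermi
      simp only [Matrix.mul_apply, Matrix.transpose_apply, Matrix.map_apply, hJ, Matrix.of_apply,
        Finset.sum_mul]
      rw [Finset.sum_comm]
      refine Finset.sum_congr rfl fun q _ => Finset.sum_congr rfl fun p _ => ?_
      ring
    constructor
    · have h1 := congrArg Matrix.det hmat
      rw [Matrix.det_mul, Matrix.det_mul, Matrix.det_transpose, ← RingHom.mapMatrix_apply,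
        ← RingHom.map_det, hJdet] at h1
      have hτT : τ x ∈ T := by
        obtain ⟨-, -, γ, hγ⟩ := hA
        exact (hK.et.mem _ _ _ (hγ x hx)).2
      rw [← hdc x hxT, ← hdc (τ x) hτT] at h1
      have h2 : L.det * (((H (τ x)).det.re : ℝ) : ℂ) * (starRingEnd ℂ) L.det =
          (((H (τ x)).det.re * ‖L.det‖ ^ 2 : ℝ) : ℂ) := by
        have h3 : L.det * (starRingEnd ℂ) L.det = ((‖L.det‖ ^ 2 : ℝ) : ℂ) := by
          rw [Complex.mul_conj']
          push_cast
          rfl
        calc L.det * (((H (τ x)).det.re : ℝ) : ℂ) * (starRingEnd ℂ) L.det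
            = (((H (τ x)).det.re : ℝ) : ℂ) * (L.det * (starRingEnd ℂ) L.det) := by ring
          _ = _ := by rw [h3]; push_cast; rfl
      rw [h2] at h1
      exact_mod_cast h1
    · intro j k
      have h1 := inv_nat (hunit x hxT) hmat
      rw [h1]
      simp only [Matrix.mul_apply, Matrix.transpose_apply, Matrix.map_apply, hJ, Matrix.of_apply,
        Finset.sum_mul]
      rw [Finset.sum_comm]
  · intro x hx j
    have h1 : ∀ k, cd k (fun y => ((H y).det.re : ℂ) * (H y)⁻¹ j k) x =
        cd k (fun y => (H y).adjugate j k) x := by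
      intro k
      refine cd_congr hTo (fun y hy => ?_) k hx
      show (((H y).det.re : ℝ) : ℂ) * (H y)⁻¹ j k = (H y).adjugate j k
      rw [hdc y hy, hinv y hy, ← mul_assoc, mul_inv_cancel₀ (hdetpos y hy).ne', one_mul]
    rw [Finset.sum_congr rfl fun k _ => h1 k]
    exact Pool.Agent.Helper10.Lin.div_adj H
      (fun i j => ((hK.smooth i j).contDiffAt (hTo.mem_nhds hx)).differentiableAt (by simp))
      (hK.closed x hx) j

end Pool.Agent.Helper8.SP
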