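import Pool.Agent.Helper10.SP.GoalsT
import Pool.Agent.Helper8.SP.AMAX

/-!
# Packet SP-DIVC: the divergence theorem
-/

open Complex Metric Set Filter Topology MeasureTheory
open scoped ContDiff ComplexConjugate ComplexOrder Manifold

namespace Pool.Agent.Helper8.SP

open Pool.Agent.Helper95.Lin Pool.Agent.Helper16.Abund Pool.Agent.Helper92.Orb
open Pool.Agent.Helper10.SP

universe u v

section

variable {n : ℕ}

theorem contDiff_dirC {F : Cn n → ℂ} (hF : ContDiff ℝ ∞ F) (v : Cn n) :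
    ContDiff ℝ ∞ (fun y => fderiv ℝ F y v) :=
  (hF.fderiv_right (m := ∞) (by simp)).clm_apply contDiff_const

theorem integral_dirC {F : Cn n → ℂ} (hF : ContDiff ℝ ∞ F) (hc : HasCompactSupport F)
    (v : Cn n) : Integrable (fun x => fderiv ℝ F x v) ∧ ∫ x, fderiv ℝ F x v = 0 := by
  have h1 : Integrable (fun x => fderiv ℝ F x v) :=
    (contDiff_dirC hF v).continuous.integrable_of_hasCompactSupport (hc.fderiv_apply (𝕜 := ℝ) v)
  have h2 : Integrable F := hF.continuous.integrable_of_hasCompactSupport hc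
  refine ⟨h1, ?_⟩
  have h := integral_mul_fderiv_eq_neg_fderiv_mul_of_integrable (μ := (volume : Measure (Cn n)))
    (𝕜 := ℂ) (f := fun _ : Cn n => (1 : ℂ)) (g := F) (v := v) (by simp) (by simpa using h1)
    (by simpa using h2) (fun x _ => by fun_prop)
    (fun x _ => (hF.differentiable (by simp)).differentiableAt)
  simpa using h

/-- The integral of `cd l F` vanishes for smooth `F` with compact support. -/
theorem integral_cd {F : Cn n → ℂ} (hF : ContDiff ℝ ∞ F) (hc : HasCompactSupport F)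
    (l : Fin n) : Integrable (cd l F) ∧ ∫ x, cd l F x = 0 := by
  obtain ⟨h1, h2⟩ := integral_dirC hF hc (Pi.single l 1)
  obtain ⟨h3, h4⟩ := integral_dirC hF hc (Pi.single l I)
  have h5 : Integrable (fun x => I * fderiv ℝ F x (Pi.single l I)) := h3.const_mul I
  refine ⟨h1.sub h5, ?_⟩
  unfold cd
  rw [integral_sub h1 h5, h2, integral_const_mul, h4, mul_zero, sub_zero]

theorem cd_off {F : Cn n → ℂ} {x : Cn n} (h : x ∉ tsupport F) (l : Fin n) : cd l F x = 0 := by
  have h1 : F =ᶠ[𝓝 x] 0 := notMem_tsupport_iff_eventuallyEq.1 h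
  unfold cd
  rw [h1.fderiv_eq]
  simp

/-- extension by zero -/
theorem ext_smooth {T : Set (Cn n)} {κ : Cn n → ℝ} (hT : IsOpen T) (hκ : TestF T κ)
    {g : Cn n → ℂ} (hg : ContDiffOn ℝ ∞ g T) :
    ContDiff ℝ ∞ (fun x => (κ x : ℂ) * g x) ∧ HasCompactSupport (fun x => (κ x : ℂ) * g x) ∧
      tsupport (fun x => (κ x : ℂ) * g x) ⊆ tsupport κ := by
  obtain ⟨h1, h2, h3⟩ := hκ
  have hκc : ContDiff ℝ ∞ (fun x => (κ x : ℂ)) := Complex.ofRealCLM.contDiff.comp h1
  have hsub : tsupport (fun x => (κ x : ℂ) * g x) ⊆ tsupport κ := by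
    refine closure_mono fun x hx => ?_
    rw [Function.mem_support] at hx ⊢
    intro h0
    apply hx
    rw [h0]
    simp
  refine ⟨?_, ?_, hsub⟩
  · rw [contDiff_iff_contDiffAt]
    intro x
    by_cases hx : x ∈ T
    · exact hκc.contDiffAt.mul (hg.contDiffAt (hT.mem_nhds hx))
    · have hx' : x ∉ tsupport (fun x => (κ x : ℂ) * g x) := fun h => hx (h3 (hsub h))
      have h4 := notMem_tsupport_iff_eventuallyEq.1 hx'
      exact contDiffAt_const.congr_of_eventuallyEq h4
  · exact h2.of_isClosed_subset (isClosed_tsupport _) hsub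

theorem clm_sum (L : Cn n →L[ℂ] Cn n) (y : Cn n) (k : Fin n) :
    L y k = ∑ j, y j * L (Pi.single j 1) k := by
  have h1 : y = ∑ j, y j • (Pi.single j (1 : ℂ) : Cn n) := by
    funext i
    simp [Finset.sum_apply, Pi.single_apply]
  conv_lhs => rw [h1]
  rw [map_sum, Finset.sum_apply]
  refine Finset.sum_congr rfl fun j _ => ?_
  rw [map_smul]
  rfl

end

theorem divc (hWIRT : S_WIRT) (hWCH : S_WCH) (hLFIN : S_LFIN.{u}) (hSWAP : S_SWAP.{u})
    (hDETI : S_DETI.{u}) : S_DIVC.{u} := by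
  intro n T G _ R H hK κ hκ Y hY heq
  have hTo : IsOpen T := hK.et.isOpen
  obtain ⟨hD1, hD2, -, -, hD5, -⟩ := hDETI T R H hK
  set ρ : Cn n → ℝ := fun x => (H x).det.re with hρ
  have hρpos : ∀ x ∈ T, 0 < ρ x := fun x hx => (hD1 x hx).2.1
  set κc : Cn n → ℂ := fun x => (κ x : ℂ) with hκc
  have hκcs : ContDiff ℝ ∞ κc := Complex.ofRealCLM.contDiff.comp hκ.test.1
  set K := tsupport κ with hKdef
  have hKc : IsCompact K := hκ.test.2.1
  have hKT : K ⊆ T := hκ.test.2.2
  have hκ0 : ∀ x, x ∉ K → κ x = 0 := fun x hx => image_eq_zero_of_notMem_tsupport hx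
  have hsupc : tsupport κc ⊆ K := by
    refine closure_mono fun x hx => ?_
    rw [Function.mem_support] at hx ⊢
    intro h0
    apply hx
    simp only [hκc]
    rw [h0]
    simp
  have hcd0 : ∀ x, x ∉ K → ∀ k, cd k κc x = 0 := fun x hx k => cd_off (fun h => hx (hsupc h)) k
  have hYk : ∀ k, ContDiffOn ℝ ∞ (fun y => Y y k) T := fun k => contDiffOn_pi.mp hY k
  set f : Cn n → ℂ := fun x => ∑ k, cd k κc x * (Y x k / (ρ x : ℂ)) with hf
  have hf0 : ∀ x, x ∉ K → f x = 0 := fun x hx =>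
    Finset.sum_eq_zero fun k _ => by rw [hcd0 x hx k, zero_mul]
  have hcdc : ∀ k, Continuous (cd k κc) := fun k => by
    unfold cd
    exact (contDiff_dirC hκcs _).continuous.sub
      (continuous_const.mul (contDiff_dirC hκcs _).continuous)
  have hρc : ContinuousOn (fun x => (ρ x : ℂ)) T :=
    Complex.continuous_ofReal.comp_continuousOn hD2.continuousOn
  have hfc : ContinuousOn f T := by
    refine continuousOn_finsetSum _ fun k _ => ?_
    refine (hcdc k).continuousOn.mul ((hYk k).continuousOn.div hρc fun x hx => ?_)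
    exact_mod_cast (hρpos x hx).ne'
  have hfi : Integrable f := by
    rw [← integrableOn_iff_integrable_of_support_subset (s := K)]
    · exact (hfc.mono hKT).integrableOn_compact hKc
    · intro x hx
      by_contra h
      exact hx (hf0 x h)
  -- the partition function
  have hAS : ∀ x ∈ T, AS R x (fun _ y => κc y) = 1 := by
    intro x hx
    obtain ⟨U, m, γ, τ, hxU, -, -, -, -, -, hsum⟩ := hLFIN T R hK.et K hKT hKc x hx
    have h1 := hsum ℂ (fun _ y => κc y) (fun _ y hy => by simp [hκc, hκ0 y hy]) x hxU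
    have h2 := hsum ℝ (fun _ y => κ y) (fun _ y hy => hκ0 y hy) x hxU
    rw [hκ.sum x hx] at h2
    rw [h1]
    simp only [hκc]
    rw [← Complex.ofReal_sum, ← h2]
    simp
  have hASf : ∀ x ∈ T, AS R x (fun _ y => f y) = 0 := by
    intro x hx
    obtain ⟨U, m, γ, τ, hxU, hUo, hUT, hτ, -, -, hsum⟩ := hLFIN T R hK.et K hKT hKc x hx
    rw [hsum ℂ (fun _ y => f y) (fun _ y hy => hf0 y hy) x hxU]
    have hwch : ∀ l : Fin m, ∀ j : Fin n, cd j (κc ∘ τ l) x =
        ∑ k, fderiv ℂ (τ l) x (Pi.single j 1) k * cd k κc (τ l x) := by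
      intro l j
      exact ((hWCH.1 univ U isOpen_univ hUo (τ l) (hτ l).1.2.1 (mapsTo_univ _ _)).1 κc
        hκcs.contDiffOn j x hxU).1
    have hone : ∀ l : Fin m, f (τ l x) = ∑ j, (Y x j / (ρ x : ℂ)) * cd j (κc ∘ τ l) x := by
      intro l
      have hArr : Arr R U (τ l) := ⟨hUo, (hτ l).1.2.1, γ l, (hτ l).1.2.2⟩
      have hτT : τ l x ∈ T := (hK.et.mem _ _ _ ((hτ l).1.2.2 x hxU)).2
      have h1 := heq U (τ l) hArr x hxU
      have h2 : ρ x = ρ (τ l x) * ‖(fderiv ℂ (τ l) x).det‖ ^ 2 := (hD5 U (τ l) hArr x hxU).1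
      have h3 : (ρ x : ℂ) ≠ 0 := by exact_mod_cast (hρpos x hx).ne'
      have h4 : (ρ (τ l x) : ℂ) ≠ 0 := by exact_mod_cast (hρpos _ hτT).ne'
      have h5 : ∀ k, Y (τ l x) k / (ρ (τ l x) : ℂ) =
          ∑ j, (Y x j / (ρ x : ℂ)) * fderiv ℂ (τ l) x (Pi.single j 1) k := by
        intro k
        have h6 := congrFun h1 k
        rw [clm_sum, Pi.smul_apply, smul_eq_mul] at h6
        have h7 : ∑ j, (Y x j / (ρ x : ℂ)) * fderiv ℂ (τ l) x (Pi.single j 1) k =
            (∑ j, Y x j * fderiv ℂ (τ l) x (Pi.single j 1) k) / (ρ x : ℂ) := by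
          rw [Finset.sum_div]
          exact Finset.sum_congr rfl fun j _ => by ring
        rw [h7, h6, div_eq_div_iff h4 h3, h2]
        push_cast
        ring
      simp only [hf]
      simp only [h5, hwch, Finset.mul_sum]
      rw [Finset.sum_comm]
      exact Finset.sum_congr rfl fun j _ => Finset.sum_congr rfl fun k _ => by ring
    simp only [hone]
    rw [Finset.sum_comm]
    refine Finset.sum_eq_zero fun j _ => ?_
    rw [← Finset.mul_sum]
    have hdiff : ∀ l : Fin m, DifferentiableAt ℝ (κc ∘ τ l) x := by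
      intro l
      have h1 : DifferentiableAt ℂ (τ l) x :=
        (hτ l).1.2.1.differentiableAt (hUo.mem_nhds hxU)
      have h2 : DifferentiableAt ℝ κc (τ l x) :=
        (hκcs.differentiable (by simp)).differentiableAt
      exact h2.comp x (h1.restrictScalars ℝ)
    rw [← cd_sum j hdiff]
    have h8 : EqOn (fun y => ∑ l, (κc ∘ τ l) y) (fun _ => (1 : ℂ)) U := by
      intro y hy
      have h1 := hsum ℂ (fun _ y => κc y) (fun _ y hy => by simp [hκc, hκ0 y hy]) y hy
      rw [hAS y (hUT hy)] at h1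
      exact h1.symm
    rw [cd_congr hUo h8 j hxU]
    simp [cd]
  -- the integral of `f ρ`
  obtain ⟨hS1, -, hS3⟩ := hSWAP T R hK.et ρ hD2.continuousOn
    (fun U τ hA x hx => (hD5 U τ hA x hx).1) K hKT hKc K hKT hKc f κc hfi hf0 hκcs.continuous
    (fun x hx => by simp [hκc, hκ0 x hx])
  have hfρ : ∀ x ∈ T, f x * AS R x (fun _ y => κc y) * (ρ x : ℂ) = f x * (ρ x : ℂ) := by
    intro x hx
    rw [hAS x hx, mul_one]
  have hI1 : IntegrableOn (fun x => f x * (ρ x : ℂ)) T :=
    hS1.congr_fun hfρ hTo.measurableSet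
  have hI2 : ∫ x in T, f x * (ρ x : ℂ) = 0 := by
    rw [← setIntegral_congr_fun hTo.measurableSet hfρ, hS3]
    rw [setIntegral_congr_fun (g := fun _ => (0 : ℂ)) hTo.measurableSet (fun x hx => by
      show κc x * AS R x (fun _ y => f y) * (ρ x : ℂ) = 0
      rw [hASf x hx]
      ring)]
    simp
  -- integration by parts
  have hF : ∀ k, _ := fun k => ext_smooth hTo hκ.test (hYk k)
  set Z : Cn n → ℂ := fun x => ∑ k, cd k (fun y => κc y * Y y k) x with hZ
  have hZi : Integrable Z := integrable_finsetSum _ fun k _ =>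
    (integral_cd (hF k).1 (hF k).2.1 k).1
  have hZ0 : ∫ x in T, Z x = 0 := by
    rw [setIntegral_eq_integral_of_forall_compl_eq_zero]
    · simp only [hZ]
      rw [integral_finsetSum _ fun k _ => (integral_cd (hF k).1 (hF k).2.1 k).1]
      exact Finset.sum_eq_zero fun k _ => (integral_cd (hF k).1 (hF k).2.1 k).2
    · intro x hx
      exact Finset.sum_eq_zero fun k _ => cd_off (fun h => hx (hKT ((hF k).2.2 h))) k
  have hZT : ∀ x ∈ T, κc x * ∑ k, cd k (fun y => Y y k) x = Z x - f x * (ρ x : ℂ) := by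
    intro x hx
    have h3 : (ρ x : ℂ) ≠ 0 := by exact_mod_cast (hρpos x hx).ne'
    have h1 : Z x = ∑ k, (κc x * cd k (fun y => Y y k) x + Y x k * cd k κc x) := by
      refine Finset.sum_congr rfl fun k _ => ?_
      exact ((hWIRT T hTo κc (fun y => Y y k) hκcs.contDiffOn (hYk k)).2.2.1 k x hx).1
    have h2 : f x * (ρ x : ℂ) = ∑ k, Y x k * cd k κc x := by
      simp only [hf]
      rw [Finset.sum_mul]
      refine Finset.sum_congr rfl fun k _ => ?_
      field_simp
    rw [h1, h2, Finset.sum_add_distrib, Finset.mul_sum]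
    ring
  rw [setIntegral_congr_fun hTo.measurableSet hZT, integral_sub hZi.integrableOn hI1, hZ0, hI2,
    sub_zero]

end Pool.Agent.Helper8.SP
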