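import Pool.Agent.Helper10.SP.GoalsK
import Pool.Agent.Helper8.SP.AMAX
import Pool.Agent.Helper82.SP.PROJ
import Pool.Agent.Helper67.SP.REG
import Pool.Agent.Helper35.SP.Basic
import Pool.Agent.Helper52.SP.BOCF

/-!
# Packet SP-UEST: the L2 estimate for pulled back sections
-/

open Complex Metric Set Filter Topology MeasureTheory
open scoped ContDiff ComplexConjugate ComplexOrder Manifold

namespace Pool.Agent.Helper8.SP

open Pool.Agent.Helper95.Lin Pool.Agent.Helper16.Abund Pool.Agent.Helper92.Orb
open Pool.Agent.Helper10.SP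
open Pool.Agent.Helper82.SP

universe u

namespace UEST

section alg

variable {n : ℕ}

/-- the form of the inverse matrix -/
theorem hermi_inv {A : Matrix (Fin n) (Fin n) ℂ} (hA : A.PosDef) (a e : Cn n) :
    2 * (∑ i, a i * conj (e i)).re ≤ (hermi A⁻¹ a a).re + (hermi A e e).re := by
  have hdet : IsUnit A.det := hA.det_pos.ne'.isUnit
  have h1 : A⁻¹ * A = 1 := Matrix.nonsing_inv_mul _ hdet
  have hinvH : A⁻¹.IsHermitian := hA.inv.isHermitian
  set ξ : Cn n := fun i => ∑ k, A⁻¹ k i * a k with hξ
  have h2 : ∀ j, ∑ i, A i j * ξ i = a j := by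
    intro j
    have e1 : ∀ k, ∑ i, A⁻¹ k i * A i j = if k = j then 1 else 0 := by
      intro k
      have := congrFun (congrFun h1 k) j
      rw [Matrix.mul_apply, Matrix.one_apply] at this
      exact this
    calc ∑ i, A i j * ξ i = ∑ i, ∑ k, A⁻¹ k i * A i j * a k := by
          refine Finset.sum_congr rfl fun i _ => ?_
          simp only [hξ, Finset.mul_sum]
          exact Finset.sum_congr rfl fun k _ => by ring
      _ = ∑ k, ∑ i, A⁻¹ k i * A i j * a k := Finset.sum_comm
      _ = ∑ k, (∑ i, A⁻¹ k i * A i j) * a k := by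
          refine Finset.sum_congr rfl fun k _ => ?_
          rw [Finset.sum_mul]
      _ = a j := by
          simp only [e1, ite_mul, one_mul, zero_mul]
          simp
  have h3 : ∀ f : Cn n, hermi A ξ f = ∑ j, a j * conj (f j) := by
    intro f
    unfold hermi
    rw [Finset.sum_comm]
    refine Finset.sum_congr rfl fun j _ => ?_
    rw [← h2 j, Finset.sum_mul]
  have h4 : hermi A ξ ξ = hermi A⁻¹ a a := by
    rw [h3]
    unfold hermi
    refine Finset.sum_congr rfl fun j _ => ?_
    simp only [hξ, map_sum, map_mul, Finset.mul_sum]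
    refine Finset.sum_congr rfl fun k _ => ?_
    have : conj (A⁻¹ k j) = A⁻¹ j k := hinvH.apply j k
    rw [this]
    ring
  have h5 := Helper67.SP.herm_ineq hA e ξ
  have h6 := Helper67.SP.hermi_nonneg hA (e - ξ)
  have h7 := Helper67.SP.hermi_conj hA.isHermitian e ξ
  have h8 := Helper67.SP.hermi_nonneg hA (ξ - e)
  rw [Helper67.SP.hermi_sub_left, Helper67.SP.hermi_sub_right, Helper67.SP.hermi_sub_right,
    h7, h4, h3 e] at h8
  simp only [sub_re, conj_re] at h8
  linarith

end alg

variable {b : ℕ}

theorem base_single_cast (i : Fin b) (c : ℂ) :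
    base (Pi.single (Fin.castAdd 1 i) c : Cn (b + 1)) = Pi.single i c := by
  funext j
  unfold base
  by_cases h : j = i
  · subst h
    simp
  · rw [Pi.single_eq_of_ne h, Pi.single_eq_of_ne]
    intro h'
    exact h (Fin.castAdd_injective _ _ h')

theorem base_single_last (j : Fin 1) (c : ℂ) :
    base (Pi.single (Fin.natAdd b j) c : Cn (b + 1)) = 0 := by
  funext i
  unfold base
  rw [Pi.single_eq_of_ne]
  · rfl
  · intro h'
    have := congrArg Fin.val h'
    simp at this
    omega

theorem fderiv_base {f : Cn b → ℂ} {x : Cn (b + 1)} (hf : DifferentiableAt ℝ f (base x))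
    (e : Cn (b + 1)) : fderiv ℝ (fun y => f (base y)) x e = fderiv ℝ f (base x) (base e) := by
  have h1 : HasFDerivAt (fun y : Cn (b + 1) => base y)
      ((Helper35.SP.baseL b).restrictScalars ℝ) x := by
    have h := ((Helper35.SP.baseL b).restrictScalars ℝ).hasFDerivAt (x := x)
    refine h.congr_of_eventuallyEq (Eventually.of_forall fun y => ?_)
    show base y = Helper35.SP.baseL b y
    rw [Helper35.SP.baseL_apply]
  have h2 : HasFDerivAt (fun y => f (base y))
      ((fderiv ℝ f (base x)).comp ((Helper35.SP.baseL b).restrictScalars ℝ)) x :=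
    HasFDerivAt.comp x (f := fun y : Cn (b + 1) => base y) hf.hasFDerivAt h1
  rw [h2.fderiv]
  show fderiv ℝ f (base x) (Helper35.SP.baseL b e) = _
  rw [Helper35.SP.baseL_apply]

theorem cdb_base_cast {f : Cn b → ℂ} {x : Cn (b + 1)} (hf : DifferentiableAt ℝ f (base x))
    (i : Fin b) : cdb (Fin.castAdd 1 i) (fun y => f (base y)) x = cdb i f (base x) := by
  unfold cdb
  rw [fderiv_base hf, fderiv_base hf, base_single_cast, base_single_cast]

theorem cdb_base_last {f : Cn b → ℂ} {x : Cn (b + 1)} (hf : DifferentiableAt ℝ f (base x))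
    (j : Fin 1) : cdb (Fin.natAdd b j) (fun y => f (base y)) x = 0 := by
  unfold cdb
  rw [fderiv_base hf, fderiv_base hf, base_single_last, base_single_last]
  simp

/-- the pairing with the pulled back form -/
theorem dbp_base {H : Cn (b + 1) → Matrix (Fin (b + 1)) (Fin (b + 1)) ℂ} {f : Cn b → ℂ}
    {h : Cn (b + 1) → ℂ} {x : Cn (b + 1)} (hH : ((H x)⁻¹).IsHermitian)
    (hf : DifferentiableAt ℝ f (base x)) :
    dbp H (fun y => f (base y)) h x = ∑ i, cdb i f (base x) * conj (base (vfld H h x) i) := by
  have h1 : dbp H (fun y => f (base y)) h x =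
      ∑ j, cdb j (fun y => f (base y)) x * conj (vfld H h x j) := by
    unfold dbp vfld
    refine Finset.sum_congr rfl fun j _ => ?_
    rw [map_sum, Finset.mul_sum]
    refine Finset.sum_congr rfl fun k _ => ?_
    have : conj ((H x)⁻¹ k j) = (H x)⁻¹ j k := hH.apply j k
    rw [map_mul, this]
    ring
  rw [h1, Fin.sum_univ_add]
  simp only [cdb_base_cast hf, cdb_base_last hf, zero_mul, Finset.sum_const_zero, add_zero]
  rfl

end UEST

open UEST

theorem uest (hWIRT : S_WIRT) (hLMF : S_LMF) (hDETI : S_DETI.{u}) (hBOX : S_BOX.{u})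
    (hPROJ : S_PROJ.{u}) (hBOCH : S_BOCH.{u}) : S_UEST.{u} := by
  intro b N G _ c R Rel P Φ C H hF κ hκ M W hW hlev f hf hfS
  set T : Set (Cn (b + 1)) := tubeS (Bd c 2) with hT
  have hK : KEt T Rel H := hF.ket
  have hTo : IsOpen T := hK.et.isOpen
  have hD : IsOpen (Bd c 2) := isOpen_iUnion fun i => isOpen_ball
  have hsub : Bd c 2 ⊆ Bd c R := by
    have hR : (2 : ℝ) ≤ R := by
      have h1 := hF.fol.Rge
      have h2 := hF.fol.Cge
      linarith
    exact iUnion_mono fun i => ball_subset_ball hR
  have hΦ : ContDiffOn ℝ ∞ Φ (Bd c 2) := hF.fol.smooth.mono hsub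
  obtain ⟨l1, l2, l3, -⟩ := hLMF (Bd c 2) hD Φ hΦ
  have hPD : ∀ z ∈ Bd c 2, (LM Φ z).PosDef := fun z hz =>
    Helper52.SP.lm_posDef hLMF _ hD Φ hΦ z hz (hF.fol.pos z (hsub hz))
  have hq : ∀ z, qdb Φ f z =
      (hermi (LM Φ z)⁻¹ (fun j => cdb j f z) (fun j => cdb j f z)).re := fun z => rfl
  have hq0 : ∀ z ∈ Bd c 2, 0 ≤ qdb Φ f z ∧ ((∀ j, cdb j f z = 0) → qdb Φ f z = 0) := by
    intro z hz
    constructor
    · rw [hq]
      exact Helper67.SP.hermi_nonneg (hPD z hz).inv _
    · intro h0
      unfold qdb
      simp [h0]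
  have hwf := (hWIRT (Bd c 2) hD f f hf hf).1
  have hinv : ∀ j k, ContinuousOn (fun z => (LM Φ z)⁻¹ j k) (Bd c 2) := by
    intro j k
    have h1 : ContDiffOn ℝ ∞ (fun z => ((LM Φ z).det)⁻¹ * (LM Φ z).adjugate j k) (Bd c 2) :=
      ((det_smooth l1).inv fun z hz => (hPD z hz).det_pos.ne').mul (adj_smooth l1 j k)
    refine h1.continuousOn.congr fun z hz => ?_
    show (LM Φ z)⁻¹ j k = _
    rw [Matrix.inv_def, Matrix.smul_apply, smul_eq_mul, Ring.inverse_eq_inv']
  have hqc : ContinuousOn (qdb Φ f) (Bd c 2) := by
    have : ContinuousOn (fun z => ∑ j, ∑ k, (LM Φ z)⁻¹ j k * cdb j f z * conj (cdb k f z))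
        (Bd c 2) :=
      continuousOn_finsetSum _ fun j _ => continuousOn_finsetSum _ fun k _ =>
        ((hinv j k).mul (hwf j).2.continuousOn).mul
          (Complex.continuous_conj.comp_continuousOn (hwf k).2.continuousOn)
    exact Complex.continuous_re.comp_continuousOn this
  refine ⟨hq0, hqc, ?_⟩
  obtain ⟨g, h, hg, hgd, hh, hlim⟩ :=
    hPROJ T Rel H hK κ hκ M W hW (fun x => f (base x)) hfS
  refine ⟨g, hg, hgd, ?_⟩
  have hbT : MapsTo (fun x : Cn (b + 1) => base x) T (Bd c 2) := fun x hx => hx
  have hbc : Continuous (fun x : Cn (b + 1) => base x) := by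
    have : (fun x : Cn (b + 1) => base x) = fun x => Helper35.SP.baseL b x := by
      funext x
      rw [Helper35.SP.baseL_apply]
    rw [this]
    exact (Helper35.SP.baseL b).continuous
  have hWc : ContinuousOn W T := hW.smooth.continuousOn
  have hHs := (hDETI T Rel H hK).2.2.1
  have hHh : ∀ x ∈ T, ((H x)⁻¹).IsHermitian := fun x hx =>
    ((hDETI T Rel H hK).1 x hx).2.2.1.isHermitian
  have hu : Sec T Rel M (fun x => f (base x) - g x) := Helper67.SP.sec_sub hfS hg
  have hgz : ∀ l, ∀ x ∈ T, cdb l g x = 0 :=
    ((hWIRT T hTo g g hg.1 hg.1).2.2.2.2.2).2 hgd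
  have hcdb : ∀ l, ∀ x ∈ T, cdb l (fun x => f (base x) - g x) x =
      cdb l (fun x => f (base x)) x := by
    intro l x hx
    have h1 := PROJ.cdb_lin (PROJ.smDA hTo hfS.1 hx) (PROJ.smDA hTo hg.1 hx) 1 (-1) l
    have e1 : (fun y : Cn (b + 1) => (1 : ℂ) * f (base y) + (-1) * g y) =
        fun y => f (base y) - g y := by
      funext y
      ring
    rw [e1, hgz l x hx] at h1
    rw [h1]
    ring
  have hlogs : ContDiffOn ℝ ∞ (fun y => Real.log (W y)) T :=
    hW.smooth.log fun x hx => (hW.pos x hx).ne'
  obtain ⟨m1, -, m3, -⟩ := hLMF T hTo _ hlogs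
  have key : ∀ j, nsE T κ W (fun x => f (base x) - g x) ≤
      (∫ x in T, κ x * W x * qdb Φ f (base x)) +
        nsE T κ W (fun x => f (base x) - g x - boxO H W (h j) x) := by
    intro j
    have hBj := (hBOX T Rel H hK κ hκ M W hW (h j) (h j) (hh j) (hh j)).1
    have hip := (hBOX T Rel H hK κ hκ M W hW _ (h j) hu (hh j)).2.2
    have hns := PROJ.nsE_lin hTo hκ.test hWc hu.1.continuousOn hBj.1.continuousOn (-1)
    have e1 : (fun x : Cn (b + 1) => f (base x) - g x + (-1) * boxO H W (h j) x) =
        fun x => f (base x) - g x - boxO H W (h j) x := by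
      funext x
      ring
    rw [e1, hip] at hns
    simp only [map_neg, map_one, neg_mul, one_mul, Complex.neg_re, norm_neg, norm_one, one_pow]
      at hns
    have hmain : 2 * (dipE T κ W H (fun x => f (base x) - g x) (h j)).re ≤
        (∫ x in T, κ x * W x * qdb Φ f (base x)) + nsE T κ W (boxO H W (h j)) := by
      have hbo := hBOCH T Rel H hK κ hκ M W hW (h j) (hh j)
      have hdc : ContinuousOn (dbp H (fun x => f (base x) - g x) (h j)) T := by
        have h2 := (hWIRT T hTo _ _ hu.1 hu.1).1
        have h3 := (hWIRT T hTo _ _ (hh j).1 (hh j).1).1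
        unfold dbp
        refine continuousOn_finsetSum _ fun j _ => continuousOn_finsetSum _ fun k _ => ?_
        exact ((hHs j k).continuousOn.mul (h2 j).2.continuousOn).mul
          (Complex.continuous_conj.comp_continuousOn (h3 k).2.continuousOn)
      have hvc : ∀ k, ContinuousOn (fun x => vfld H (h j) x k) T := by
        intro k
        have h3 := (hWIRT T hTo _ _ (hh j).1 (hh j).1).1
        unfold vfld
        exact continuousOn_finsetSum _ fun j _ =>
          (hHs j k).continuousOn.mul (h3 j).2.continuousOn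
      have hlc : ContinuousOn
          (fun x => - lev (fun y => Real.log (W y)) x (vfld H (h j) x)) T := by
        have h4 : ContinuousOn (fun x => - (hermi (LM (fun y => Real.log (W y)) x)
            (vfld H (h j) x) (vfld H (h j) x)).re) T := by
          refine (Complex.continuous_re.comp_continuousOn ?_).neg
          unfold hermi
          exact continuousOn_finsetSum _ fun p _ => continuousOn_finsetSum _ fun q _ =>
            ((m1 p q).continuousOn.mul (hvc p)).mul
              (Complex.continuous_conj.comp_continuousOn (hvc q))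
        refine h4.congr fun x hx => ?_
        show - lev (fun y => Real.log (W y)) x (vfld H (h j) x) =
          - (hermi (LM (fun y => Real.log (W y)) x) (vfld H (h j) x) (vfld H (h j) x)).re
        rw [← m3 x hx, Complex.ofReal_re]
      have hdi : IntegrableOn (fun x => ((κ x * W x : ℝ) : ℂ) *
          dbp H (fun x => f (base x) - g x) (h j) x) T :=
        Helper67.SP.dip_int hTo hκ hWc hHs hu.1 (hh j).1
      have e2 : (dipE T κ W H (fun x => f (base x) - g x) (h j)).re =
          ∫ x in T, κ x * W x * (dbp H (fun x => f (base x) - g x) (h j) x).re := by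
        unfold dipE
        have h5 := Complex.reCLM.integral_comp_comm hdi
        simp only [Complex.reCLM_apply] at h5
        rw [← h5]
        refine setIntegral_congr_fun hTo.measurableSet fun x _ => ?_
        show (((κ x * W x : ℝ) : ℂ) * dbp H (fun x => f (base x) - g x) (h j) x).re = _
        rw [Complex.re_ofReal_mul]
      have hgen : ∀ F : Cn (b + 1) → ℝ, ContinuousOn F T →
          IntegrableOn (fun x => κ x * W x * F x) T := by
        intro F hFc
        have h5 := PROJ.integ hTo hκ.test (F := fun x => W x * F x) (hWc.mul hFc)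
        refine h5.congr_fun (fun x _ => ?_) hTo.measurableSet
        simp only [smul_eq_mul]
        ring
      have i1 := hgen (fun x => (dbp H (fun x => f (base x) - g x) (h j) x).re)
        (Complex.continuous_re.comp_continuousOn hdc)
      have i2 := hgen (fun x => qdb Φ f (base x)) (hqc.comp hbc.continuousOn hbT)
      have i3 := hgen _ hlc
      have hpt : ∀ x ∈ T, 2 * (dbp H (fun x => f (base x) - g x) (h j) x).re ≤
          qdb Φ f (base x) + - lev (fun y => Real.log (W y)) x (vfld H (h j) x) := by
        intro x hx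
        have h6 : dbp H (fun x => f (base x) - g x) (h j) x =
            dbp H (fun x => f (base x)) (h j) x := by
          unfold dbp
          refine Finset.sum_congr rfl fun p _ => Finset.sum_congr rfl fun q _ => ?_
          rw [hcdb p x hx]
        have hdf : DifferentiableAt ℝ f (base x) :=
          (hf.contDiffAt (hD.mem_nhds (hbT hx))).differentiableAt (by simp)
        rw [h6, dbp_base (hHh x hx) hdf]
        have h7 := hermi_inv (hPD (base x) (hbT hx)) (fun i => cdb i f (base x))
          (base (vfld H (h j) x))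
        have h8 := hlev x hx (vfld H (h j) x)
        have h9 := l3 (base x) (hbT hx) (base (vfld H (h j) x))
        rw [← h9, Complex.ofReal_re] at h7
        rw [hq]
        linarith
      calc 2 * (dipE T κ W H (fun x => f (base x) - g x) (h j)).re
          = ∫ x in T, 2 * (κ x * W x * (dbp H (fun x => f (base x) - g x) (h j) x).re) := by
            rw [e2, integral_const_mul]
        _ ≤ ∫ x in T, (κ x * W x * qdb Φ f (base x) +
              κ x * W x * (- lev (fun y => Real.log (W y)) x (vfld H (h j) x))) := by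
            refine setIntegral_mono_on (i1.const_mul 2) (i2.add i3) hTo.measurableSet
              fun x hx => ?_
            have h10 := hpt x hx
            have h11 : 0 ≤ κ x * W x := mul_nonneg (hκ.nonneg x) (hW.pos x hx).le
            have h12 := mul_le_mul_of_nonneg_left h10 h11
            linarith
        _ = (∫ x in T, κ x * W x * qdb Φ f (base x)) +
              ∫ x in T, κ x * W x * (- lev (fun y => Real.log (W y)) x (vfld H (h j) x)) :=
            integral_add i2 i3
        _ ≤ (∫ x in T, κ x * W x * qdb Φ f (base x)) + nsE T κ W (boxO H W (h j)) := by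
            linarith
    linarith
  have hl := hlim.const_add (∫ x in T, κ x * W x * qdb Φ f (base x))
  rw [add_zero] at hl
  exact ge_of_tendsto' hl key

end Pool.Agent.Helper8.SP
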